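import Mathlib

namespace Pool.Agent.H.MP_37447d_al
open Finset

theorem weak {ι : Type*} [DecidableEq ι] (c : ι → ℝ) (hc : ∀ g, 0 ≤ c g) (β : ℝ) (hβ : 0 ≤ β) :
    ∀ (n : ℕ) (s : Finset ι), s.card = n → (∀ S ⊆ s, (∑ g ∈ S, c g) ^ 2 ≤ β * S.card) →
      ∑ g ∈ s, c g ^ 2 ≤ β * (harmonic n : ℝ) := by
  intro n
  induction n with
  | zero => intro s hs _; rw [Finset.card_eq_zero.1 hs]; simp
  | succ n ih =>
    intro s hs h
    obtain ⟨x, hx, hmin⟩ := Finset.exists_min_image s c (Finset.card_pos.1 (by omega))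
    have h1 := ih (s.erase x) (by rw [Finset.card_erase_of_mem hx]; omega)
      fun S hS => h S (hS.trans (Finset.erase_subset _ _))
    rw [← Finset.add_sum_erase _ _ hx, harmonic_succ]
    have h2 : ((n : ℝ) + 1) * c x ≤ ∑ g ∈ s, c g := by
      have := Finset.card_nsmul_le_sum s c (c x) hmin
      rw [hs, nsmul_eq_mul] at this; exact_mod_cast this
    have h3 := h s subset_rfl
    rw [hs] at h3
    have hn : (0 : ℝ) < n + 1 := by positivity
    have h4 : (((n : ℝ) + 1) * c x) ^ 2 ≤ β * (n + 1) := by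
      refine le_trans (pow_le_pow_left₀ (mul_nonneg hn.le (hc x)) h2 2) ?_
      exact_mod_cast h3
    have h5 : c x ^ 2 ≤ β * ((n : ℝ) + 1)⁻¹ := by
      rw [← div_eq_mul_inv, le_div_iff₀ hn]
      have : ((n : ℝ) + 1) * (c x ^ 2 * (n + 1)) ≤ (n + 1) * β := by nlinarith
      exact le_of_mul_le_mul_left this hn
    push_cast
    linarith

theorem pow_le_pow_left_iff_aux (a b : ℝ) (hb : 0 ≤ b) (h : a ^ 2 ≤ b ^ 2) : a ≤ b :=
  (abs_le_of_sq_le_sq' h hb).2

theorem bl {ι : Type*} [DecidableEq ι] (A : ι → ι → ℝ) (hA : ∀ x y, 0 ≤ A x y) (α D : ℝ)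
    (hα : 0 ≤ α) (U W : Finset ι) (hr : ∀ x, ∑ y ∈ W, A x y ≤ D) (hc : ∀ y, ∑ x ∈ U, A x y ≤ D)
    (h : ∀ X Y : Finset ι, (∑ x ∈ X, ∑ y ∈ Y, A x y) ^ 2 ≤ α ^ 2 * X.card * Y.card)
    (η ψ : ι → ℝ) (hη : ∀ x, 0 ≤ η x) (hψ : ∀ x, 0 ≤ ψ x) (m : ℕ) :
    ∑ x ∈ U, ∑ y ∈ W, A x y * (η x * ψ y) ≤
      ((2 * m + 1) * (2 * α) + D / 2 ^ m) * (∑ x ∈ U, η x ^ 2 + ∑ y ∈ W, ψ y ^ 2) := by
  let lv : ℝ → ℤ := fun t => Int.log 2 t
  have l1 : ∀ t, 0 < t → (2 : ℝ) ^ lv t ≤ t := fun t ht => by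
    simpa using Int.zpow_log_le_self (b := 2) (by norm_num) ht
  have l2 : ∀ t, t < 2 * (2 : ℝ) ^ lv t := fun t => by
    have := Int.lt_zpow_succ_log_self (b := 2) (by norm_num) t
    rw [zpow_add_one₀ (by norm_num)] at this
    simpa [mul_comm] using this
  have far : ∀ s t : ℝ, 0 < s → 0 < t → lv t + m < lv s → s * t ≤ (s ^ 2 + t ^ 2) / 2 ^ m := by
    intro s t hs ht hlt
    have a1 : 2 * (2 : ℝ) ^ lv t * 2 ^ m ≤ 2 ^ lv s := by
      rw [mul_comm 2, ← zpow_add_one₀ (by norm_num), ← zpow_natCast, ← zpow_add₀ (by norm_num)]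
      exact zpow_le_zpow_right₀ (by norm_num) (by omega)
    have a2 : t * 2 ^ m ≤ s :=
      (mul_le_mul_of_nonneg_right (l2 t).le (by positivity)).trans (a1.trans (l1 s hs))
    rw [le_div_iff₀ (by positivity)]
    nlinarith
  let U' := U.filter fun x => 0 < η x
  let W' := W.filter fun y => 0 < ψ y
  have pt : ∀ x y, η x * ψ y ≤ (η x ^ 2 + ψ y ^ 2) / 2 ^ m + ∑ d ∈ Finset.Icc (-(m : ℤ)) m,
      if (0 < η x ∧ 0 < ψ y) ∧ lv (η x) = lv (ψ y) + d then
        4 * ((2 : ℝ) ^ lv (η x) * 2 ^ lv (ψ y)) else 0 := by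
    intro x y
    have n1 : 0 ≤ (η x ^ 2 + ψ y ^ 2) / 2 ^ m := by positivity
    have n2 : ∀ d ∈ Finset.Icc (-(m : ℤ)) m, 0 ≤ if (0 < η x ∧ 0 < ψ y) ∧
        lv (η x) = lv (ψ y) + d then 4 * ((2 : ℝ) ^ lv (η x) * 2 ^ lv (ψ y)) else 0 :=
      fun d _ => by split_ifs <;> positivity
    have n3 := Finset.sum_nonneg n2
    rcases (hη x).eq_or_lt with h1 | h1
    · have : η x * ψ y = 0 := by rw [← h1, zero_mul]
      linarith
    rcases (hψ y).eq_or_lt with h2 | h2
    · have : η x * ψ y = 0 := by rw [← h2, mul_zero]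
      linarith
    by_cases c1 : lv (ψ y) + m < lv (η x)
    · linarith [far _ _ h1 h2 c1]
    by_cases c2 : lv (η x) + m < lv (ψ y)
    · have := far _ _ h2 h1 c2
      rw [mul_comm, add_comm] at this; linarith
    have := Finset.single_le_sum n2 (a := lv (η x) - lv (ψ y)) (by rw [Finset.mem_Icc]; omega)
    rw [if_pos ⟨⟨h1, h2⟩, by ring⟩] at this
    have a1 := mul_le_mul (l2 (η x)).le (l2 (ψ y)).le h2.le (by positivity)
    linarith
  have near : ∀ d : ℤ, ∑ x ∈ U, ∑ y ∈ W, A x y * (if (0 < η x ∧ 0 < ψ y) ∧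
      lv (η x) = lv (ψ y) + d then 4 * ((2 : ℝ) ^ lv (η x) * 2 ^ lv (ψ y)) else 0) ≤
      2 * α * (∑ x ∈ U, η x ^ 2 + ∑ y ∈ W, ψ y ^ 2) := by
    intro d
    let I := W'.image fun y => lv (ψ y)
    let X := fun i : ℤ => U'.filter fun x => lv (η x) = i + d
    let Y := fun i : ℤ => W'.filter fun y => lv (ψ y) = i
    have e1 : ∑ x ∈ U, ∑ y ∈ W, A x y * (if (0 < η x ∧ 0 < ψ y) ∧
        lv (η x) = lv (ψ y) + d then 4 * ((2 : ℝ) ^ lv (η x) * 2 ^ lv (ψ y)) else 0) =
        ∑ i ∈ I, 4 * ((2 : ℝ) ^ (i + d) * 2 ^ i) * ∑ x ∈ X i, ∑ y ∈ Y i, A x y := by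
      simp only [X, Y, U', Finset.sum_filter, Finset.mul_sum]
      rw [Finset.sum_comm (s := I)]
      refine Finset.sum_congr rfl fun x _ => ?_
      by_cases hx : 0 < η x
      · simp only [hx, true_and, if_true]
        have : ∀ i ∈ I, (4 * ((2 : ℝ) ^ (i + d) * 2 ^ i) * if lv (η x) = i + d then
            ∑ y ∈ W', if lv (ψ y) = i then A x y else 0 else 0) =
            ∑ y ∈ W', if lv (ψ y) = i then (if lv (η x) = lv (ψ y) + d then
              A x y * (4 * ((2 : ℝ) ^ lv (η x) * 2 ^ lv (ψ y))) else 0) else 0 := by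
          intro i _
          split_ifs with h1
          · rw [Finset.mul_sum]
            refine Finset.sum_congr rfl fun y _ => ?_
            by_cases h2 : lv (ψ y) = i
            · simp [h2, h1, mul_comm]
            · simp [h2]
          · rw [mul_zero]; symm
            refine Finset.sum_eq_zero fun y _ => ?_
            by_cases h2 : lv (ψ y) = i
            · simp [h2, h1]
            · simp [h2]
        rw [Finset.sum_congr rfl this, Finset.sum_comm]
        rw [Finset.sum_congr rfl (s₁ := W') fun y hy => by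
          rw [Finset.sum_ite_eq, if_pos (Finset.mem_image_of_mem (fun y => lv (ψ y)) hy)]]
        simp only [W', Finset.sum_filter]
        refine Finset.sum_congr rfl fun y _ => ?_
        by_cases h2 : 0 < ψ y <;> simp [h2]
      · simp [hx]
    rw [e1]
    have e2 : ∀ i ∈ I, 4 * ((2 : ℝ) ^ (i + d) * 2 ^ i) * ∑ x ∈ X i, ∑ y ∈ Y i, A x y ≤
        2 * α * (∑ x ∈ X i, η x ^ 2 + ∑ y ∈ Y i, ψ y ^ 2) := by
      intro i _
      have b1 : ((2 : ℝ) ^ (i + d)) ^ 2 * (X i).card ≤ ∑ x ∈ X i, η x ^ 2 := by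
        rw [mul_comm, ← nsmul_eq_mul]
        refine Finset.card_nsmul_le_sum _ _ _ fun x hx => ?_
        obtain ⟨c1, c2⟩ := Finset.mem_filter.1 hx
        rw [← c2]
        exact pow_le_pow_left₀ (by positivity) (l1 _ (Finset.mem_filter.1 c1).2) 2
      have b2 : ((2 : ℝ) ^ i) ^ 2 * (Y i).card ≤ ∑ y ∈ Y i, ψ y ^ 2 := by
        rw [mul_comm, ← nsmul_eq_mul]
        refine Finset.card_nsmul_le_sum _ _ _ fun x hx => ?_
        obtain ⟨c1, c2⟩ := Finset.mem_filter.1 hx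
        rw [← c2]
        exact pow_le_pow_left₀ (by positivity) (l1 _ (Finset.mem_filter.1 c1).2) 2
      have b3 := h (X i) (Y i)
      set T := ∑ x ∈ X i, ∑ y ∈ Y i, A x y
      set a := (2 : ℝ) ^ (i + d)
      set b := (2 : ℝ) ^ i
      set p : ℝ := ((X i).card : ℝ)
      set q : ℝ := ((Y i).card : ℝ)
      have hp : 0 ≤ p := Nat.cast_nonneg _
      have hq : 0 ≤ q := Nat.cast_nonneg _
      have b4 : 2 * (a * b) * T ≤ α * (a ^ 2 * p + b ^ 2 * q) := by
        refine (pow_le_pow_left_iff_aux _ _ (by positivity) ?_)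
        have c1 : (a * b) ^ 2 * T ^ 2 ≤ (a * b) ^ 2 * (α ^ 2 * p * q) :=
          mul_le_mul_of_nonneg_left b3 (sq_nonneg _)
        nlinarith [sq_nonneg (α * (a ^ 2 * p - b ^ 2 * q))]
      nlinarith
    refine (Finset.sum_le_sum e2).trans ?_
    rw [← Finset.mul_sum, Finset.sum_add_distrib]
    refine mul_le_mul_of_nonneg_left (add_le_add ?_ ?_) (by positivity)
    · rw [← Finset.sum_biUnion]
      · exact Finset.sum_le_sum_of_subset_of_nonneg (Finset.biUnion_subset.2 fun i _ =>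
          (Finset.filter_subset _ _).trans (Finset.filter_subset _ _)) fun _ _ _ => sq_nonneg _
      · intro i _ j _ hij
        exact Finset.disjoint_left.2 fun x h1 h2 => hij (by
          have := (Finset.mem_filter.1 h1).2; have := (Finset.mem_filter.1 h2).2; omega)
    · rw [← Finset.sum_biUnion]
      · exact Finset.sum_le_sum_of_subset_of_nonneg (Finset.biUnion_subset.2 fun i _ =>
          (Finset.filter_subset _ _).trans (Finset.filter_subset _ _)) fun _ _ _ => sq_nonneg _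
      · intro i _ j _ hij
        exact Finset.disjoint_left.2 fun x h1 h2 => hij (by
          have := (Finset.mem_filter.1 h1).2; have := (Finset.mem_filter.1 h2).2; omega)
  refine (Finset.sum_le_sum fun x _ => Finset.sum_le_sum fun y _ =>
    mul_le_mul_of_nonneg_left (pt x y) (hA x y)).trans ?_
  simp only [mul_add (A _ _), Finset.sum_add_distrib, Finset.mul_sum (s := Finset.Icc _ _)]
  rw [add_mul, add_comm]
  apply add_le_add
  · rw [Finset.sum_congr rfl fun x _ => Finset.sum_comm, Finset.sum_comm]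
    refine (Finset.sum_le_sum fun d _ => near d).trans ?_
    rw [Finset.sum_const, Int.card_Icc, nsmul_eq_mul]
    have : ((m + 1 - -(m : ℤ)).toNat : ℝ) = 2 * m + 1 := by
      have : (m + 1 - -(m : ℤ)).toNat = 2 * m + 1 := by omega
      rw [this]; push_cast; ring
    rw [this]; exact le_of_eq (by ring)
  · have e1 : ∑ x ∈ U, ∑ y ∈ W, A x y * ((η x ^ 2 + ψ y ^ 2) / 2 ^ m) =
        (∑ x ∈ U, (∑ y ∈ W, A x y) * η x ^ 2 + ∑ y ∈ W, (∑ x ∈ U, A x y) * ψ y ^ 2) / 2 ^ m := by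
      simp only [Finset.sum_mul]
      rw [Finset.sum_comm (s := W), ← Finset.sum_add_distrib, Finset.sum_div]
      refine Finset.sum_congr rfl fun x _ => ?_
      rw [← Finset.sum_add_distrib, Finset.sum_div]
      exact Finset.sum_congr rfl fun y _ => by ring
    rw [e1, div_mul_eq_mul_div, mul_add, Finset.mul_sum, Finset.mul_sum]
    exact div_le_div_of_nonneg_right (add_le_add
      (Finset.sum_le_sum fun x _ => mul_le_mul_of_nonneg_right (hr x) (sq_nonneg _))
      (Finset.sum_le_sum fun y _ => mul_le_mul_of_nonneg_right (hc y) (sq_nonneg _)))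
      (by positivity)

end Pool.Agent.H.MP_37447d_al
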